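import Pool.Agent.SGD.Stmts

/-!
SGD, row BND: an edge without a face on its left is on the boundary.
-/

set_option autoImplicit false

namespace Pool.Agent.SGD.H77

open Pool.Agent.SGE Pool.Agent.SGP Pool.Agent.SGY

theorem tri_tail {V : Type} {R : V → V → V → Prop} {c : V} {L : List V} (h : Tri R (c :: L)) :
    Tri R L := by
  match L, h with
  | [], _ => trivial
  | [_], _ => trivial
  | _ :: _ :: _, h => exact h.2

theorem tri_mid {V : Type} {R : V → V → V → Prop} {p q r : V} {Q : List V} : ∀ {P : List V},
    Tri R (P ++ p :: q :: r :: Q) → R p q r := by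
  intro P
  induction P with
  | nil => exact fun h => h.1
  | cons c P ih => exact fun h => ih (tri_tail h)

theorem bnd : BndStmt := by
  intro V _ a b C E F h x y hE hF
  by_cases hx : x ∈ C
  · obtain ⟨P, Q, rfl⟩ := List.append_of_mem hx
    have hbd := h.bd
    obtain ⟨P', x', hP⟩ : ∃ P' x', b :: P = P' ++ [x'] := by
      rcases List.eq_nil_or_concat (b :: P) with h0 | ⟨P', x', h0⟩
      · exact absurd h0 (List.cons_ne_nil _ _)
      · exact ⟨P', x', by rw [h0, List.concat_eq_append]⟩
    obtain ⟨y', Q', hQ⟩ : ∃ y' Q', Q ++ [a] = y' :: Q' := by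
      cases Q with
      | nil => exact ⟨a, [], rfl⟩
      | cons q Q => exact ⟨q, Q ++ [a], rfl⟩
    have h1 : b :: ((P ++ x :: Q) ++ [a]) = P' ++ x' :: x :: y' :: Q' := by
      rw [List.append_assoc, List.cons_append, hQ, ← List.cons_append, hP, List.append_assoc]
      rfl
    rw [h1] at hbd
    obtain ⟨l, _, hl2, hl3, _, hl5, _⟩ := tri_mid hbd
    have hy : y ∈ l := (hl5 y).1 hE
    obtain ⟨l1, l2, rfl⟩ := List.append_of_mem hy
    have hyy : y = y' := by
      cases l2 with
      | nil =>
        rw [List.getLast?_append, List.getLast?_singleton] at hl2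
        exact Option.some.inj hl2
      | cons w l3 =>
        exfalso
        have h2 := List.isChain_append.1 hl3
        exact hF w (List.isChain_cons_cons.1 h2.2.1).1
    subst hyy
    cases Q with
    | nil =>
      right
      have h3 : y = a := (List.cons.inj hQ).1.symm
      have h4 := h.ls
      rw [List.getLast?_append, List.getLast?_singleton] at h4
      exact ⟨Option.some.inj h4, h3⟩
    | cons q Q =>
      left
      have h3 : y = q := (List.cons.inj hQ).1.symm
      exact ⟨P, Q, by rw [h3]⟩
  · exfalso
    obtain ⟨l, hl, _, _⟩ := h.int x y hx hE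
    cases l with
    | nil => exact hF y (List.isChain_cons_cons.1 hl).1
    | cons w l => exact hF w (List.isChain_cons_cons.1 hl).1

end Pool.Agent.SGD.H77
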