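import Pool.Agent.SGD.Stmts
import Pool.Agent.Helper56_SGP.CTR

/-! Squad SGD, row CSG: the glued placement is good for the triangulation (after
`Helper47_SGY/CST.lean`). -/

noncomputable section

namespace Pool.Agent.SGD.H77

open Pool.Agent.SGE Pool.Agent.SGP Pool.Agent.SGY

theorem cst_swap (p q r : ℝ × ℝ) : o p q r = - o q p r := by unfold o; ring

theorem cst_two_swap {V : Type} {K : Set V} {x y z : V} (h : Two K y x z) : Two K x y z := by
  rcases h with h | h | h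
  · exact Or.inl ⟨h.2, h.1⟩
  · exact Or.inr (Or.inr ⟨h.2, h.1⟩)
  · exact Or.inr (Or.inl ⟨h.2, h.1⟩)

theorem csg : CsgStmt := by
  intro V _ a b c E E₁ E₂ F F₁ F₂ K f₁ f₂ g N H G1 G2 hg
  have hnd := N.nd
  simp only [List.nodup_cons, List.mem_cons, List.not_mem_nil, not_or,
    or_false, not_false_eq_true, and_true, List.nodup_nil] at hnd
  obtain ⟨⟨hac, hab⟩, hcb⟩ := hnd
  have ra : Rel E a := Pool.Agent.SGP.H56.contour_nb N (by simp)
  have rb : Rel E b := Pool.Agent.SGP.H56.contour_nb N (by simp)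
  have rc : Rel E c := Pool.Agent.SGP.H56.contour_nb N (by simp)
  have ra1 : Rel E₁ a := Pool.Agent.SGP.H56.contour_nb H.nt1 (by simp)
  have rb1 : Rel E₁ b := Pool.Agent.SGP.H56.contour_nb H.nt1 (by simp)
  have rc1 : Rel E₁ c := Pool.Agent.SGP.H56.contour_nb H.nt1 (by simp)
  have ra2 : Rel E₂ a := Pool.Agent.SGP.H56.contour_nb H.nt2 (by simp)
  have rb2 : Rel E₂ b := Pool.Agent.SGP.H56.contour_nb H.nt2 (by simp)
  have rc2 : Rel E₂ c := Pool.Agent.SGP.H56.contour_nb H.nt2 (by simp)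
  have aK : a ∉ K := fun h => (H.sub h).1 rfl
  have bK : b ∉ K := fun h => (H.sub h).2.1 rfl
  have cK : c ∉ K := fun h => (H.sub h).2.2.1 rfl
  have aP : a ∉ K ∪ {c} := by
    rintro (h | h)
    · exact aK h
    · exact hac h
  have bP : b ∉ K ∪ {c} := by
    rintro (h | h)
    · exact bK h
    · exact hcb h.symm
  have cP : c ∈ K ∪ {c} := Or.inr rfl
  have KP : ∀ x, x ∈ K → x ∈ K ∪ {c} := fun x h => Or.inl h
  have nP : ∀ x, x ∉ K → x ≠ c → x ∉ K ∪ {c} := by
    rintro x h1 h2 (h | h)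
    · exact h1 h
    · exact h2 h
  -- th1 and th2
  have t1K : ∀ x, x ∈ K → th1 c K x = c := fun x h => by simp [th1, h]
  have t1n : ∀ x, x ∉ K → th1 c K x = x := fun x h => by simp [th1, h]
  have t2P : ∀ x, x ∈ K ∪ {c} → th2 a b c K x = x := by
    rintro x (h | h)
    · simp [th2, h]
    · rw [Set.mem_singleton_iff] at h
      simp [th2, h]
  have t2a : th2 a b c K a = a := by simp [th2]
  have t2n : ∀ x, x ∉ K ∪ {c} → x ≠ a → th2 a b c K x = b := by
    intro x h h'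
    have h1 : x ∉ K := fun h' => h (Or.inl h')
    have h2 : x ≠ c := fun h' => h (Or.inr h')
    simp [th2, h1, h2, h']
  have t1ne : ∀ x y, x ≠ y → ¬ (x ∈ K ∪ {c} ∧ y ∈ K ∪ {c}) → th1 c K x ≠ th1 c K y := by
    intro x y hxy h
    by_cases hx : x ∈ K
    · have hy : y ∉ K ∪ {c} := fun h' => h ⟨KP x hx, h'⟩
      have hy1 : y ∉ K := fun h' => hy (Or.inl h')
      rw [t1K x hx, t1n y hy1]
      exact fun h' => hy (Or.inr h'.symm)
    · by_cases hy : y ∈ K
      · have hx' : x ∉ K ∪ {c} := fun h' => h ⟨h', KP y hy⟩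
        rw [t1K y hy, t1n x hx]
        exact fun h' => hx' (Or.inr h')
      · rw [t1n x hx, t1n y hy]
        exact hxy
  have t2ne' : ∀ x y, x ≠ y → x ∈ K ∪ {c} → th2 a b c K x ≠ th2 a b c K y := by
    intro x y hxy hx
    rw [t2P x hx]
    by_cases hy : y ∈ K ∪ {c}
    · rw [t2P y hy]
      exact hxy
    · by_cases hya : y = a
      · rw [hya, t2a]
        exact fun h => aP (h ▸ hx)
      · rw [t2n y hy hya]
        exact fun h => bP (h ▸ hx)
  have t2ne : ∀ x y, x ≠ y → x ∈ K ∪ {c} ∨ y ∈ K ∪ {c} → th2 a b c K x ≠ th2 a b c K y := by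
    rintro x y hxy (h | h)
    · exact t2ne' x y hxy h
    · exact (t2ne' y x hxy.symm h).symm
  have r1 : ∀ x, Rel E x → Rel E₁ (th1 c K x) := by
    intro x hx
    by_cases h : x ∈ K
    · rw [t1K x h]
      exact rc1
    · rw [t1n x h]
      by_cases h1 : x = a
      · rw [h1]; exact ra1
      by_cases h2 : x = b
      · rw [h2]; exact rb1
      by_cases h3 : x = c
      · rw [h3]; exact rc1
      have : x ∈ Inn a b c E₁ := by
        rw [H.inn1]
        exact ⟨⟨h1, h2, h3, hx⟩, h⟩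
      exact this.2.2.2
  have r2 : ∀ x, Rel E₂ (th2 a b c K x) := by
    intro x
    by_cases h : x ∈ K ∪ {c}
    · rw [t2P x h]
      rcases h with h | h
      · have : x ∈ Inn a b c E₂ := by rw [H.inn2]; exact h
        exact this.2.2.2
      · rw [Set.mem_singleton_iff] at h
        rw [h]
        exact rc2
    · by_cases h1 : x = a
      · rw [h1, t2a]; exact ra2
      · rw [t2n x h h1]; exact rb2
  have R1 : ∀ x y z, Rel E x → Rel E y → Rel E z → ¬ Two (K ∪ {c}) x y z →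
      0 < o (f₁ (th1 c K x)) (f₁ (th1 c K y)) (f₁ (th1 c K z)) → 0 < o (g x) (g y) (g z) :=
    fun x y z h1 h2 h3 => (hg x y z h1 h2 h3).1
  have R2 : ∀ x y z, Rel E x → Rel E y → Rel E z → Two (K ∪ {c}) x y z →
      0 < o (f₂ (th2 a b c K x)) (f₂ (th2 a b c K y)) (f₂ (th2 a b c K z)) →
      0 < o (g x) (g y) (g z) :=
    fun x y z h1 h2 h3 => (hg x y z h1 h2 h3).2
  have nT : ∀ x y z, x ∉ K ∪ {c} → y ∉ K ∪ {c} → ¬ Two (K ∪ {c}) x y z := by
    rintro x y z hx hy (h | h | h)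
    · exact hx h.1
    · exact hy h.1
    · exact hx h.2
  have nT' : ∀ x y z, x ∉ K ∪ {c} → z ∉ K ∪ {c} → ¬ Two (K ∪ {c}) x y z := by
    rintro x y z hx hz (h | h | h)
    · exact hx h.1
    · exact hz h.2
    · exact hx h.2
  have nT'' : ∀ x y z, y ∉ K ∪ {c} → z ∉ K ∪ {c} → ¬ Two (K ∪ {c}) x y z := by
    rintro x y z hy hz (h | h | h)
    · exact hy h.2
    · exact hz h.2
    · exact hz h.1
  refine ⟨?_, ?_, ?_, ?_⟩
  · -- gp
    intro x y z hx hy hz hxy hxz hyz
    by_cases hT : Two (K ∪ {c}) x y z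
    · have h1 : x ∈ K ∪ {c} ∨ y ∈ K ∪ {c} := by
        rcases hT with h | h | h
        · exact Or.inl h.1
        · exact Or.inr h.1
        · exact Or.inl h.2
      have h2 : x ∈ K ∪ {c} ∨ z ∈ K ∪ {c} := by
        rcases hT with h | h | h
        · exact Or.inl h.1
        · exact Or.inr h.2
        · exact Or.inl h.2
      have h3 : y ∈ K ∪ {c} ∨ z ∈ K ∪ {c} := by
        rcases hT with h | h | h
        · exact Or.inl h.2
        · exact Or.inl h.1
        · exact Or.inr h.1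
      have h4 := G2.gp _ _ _ (r2 x) (r2 y) (r2 z) (t2ne x y hxy h1) (t2ne x z hxz h2)
        (t2ne y z hyz h3)
      rcases lt_or_gt_of_ne h4 with h | h
      · rw [cst_swap] at h
        have := R2 y x z hy hx hz (cst_two_swap hT) (by linarith)
        rw [cst_swap]
        exact (neg_neg_of_pos this).ne
      · exact (R2 x y z hx hy hz hT h).ne'
    · have h1 : ¬ (x ∈ K ∪ {c} ∧ y ∈ K ∪ {c}) := fun h => hT (Or.inl h)
      have h2 : ¬ (x ∈ K ∪ {c} ∧ z ∈ K ∪ {c}) := fun h => hT (Or.inr (Or.inr ⟨h.2, h.1⟩))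
      have h3 : ¬ (y ∈ K ∪ {c} ∧ z ∈ K ∪ {c}) := fun h => hT (Or.inr (Or.inl h))
      have h4 := G1.gp _ _ _ (r1 x hx) (r1 y hy) (r1 z hz) (t1ne x y hxy h1) (t1ne x z hxz h2)
        (t1ne y z hyz h3)
      rcases lt_or_gt_of_ne h4 with h | h
      · rw [cst_swap] at h
        have := R1 y x z hy hx hz (fun h' => hT (cst_two_swap h')) (by linarith)
        rw [cst_swap]
        exact (neg_neg_of_pos this).ne
      · exact (R1 x y z hx hy hz hT h).ne'
  · -- tri
    refine R1 a b c ra rb rc (nT a b c aP bP) ?_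
    rw [t1n a aK, t1n b bK, t1n c cK]
    exact G1.tri
  · -- ins
    intro x hx
    by_cases hxK : x ∈ K
    · have h2 := G2.ins x (by rw [H.inn2]; exact hxK)
      refine ⟨?_, ?_, ?_⟩
      · refine R1 a b x ra rb hx.2.2.2 (nT a b x aP bP) ?_
        rw [t1n a aK, t1n b bK, t1K x hxK]
        exact G1.tri
      · refine R2 b c x rb rc hx.2.2.2 (Or.inr (Or.inl ⟨cP, KP x hxK⟩)) ?_
        rw [t2n b bP (Ne.symm hab), t2P c cP, t2P x (KP x hxK)]
        exact h2.2.1
      · refine R2 c a x rc ra hx.2.2.2 (Or.inr (Or.inr ⟨KP x hxK, cP⟩)) ?_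
        rw [t2a, t2P c cP, t2P x (KP x hxK)]
        exact h2.2.2
    · have h1 := G1.ins x (by rw [H.inn1]; exact ⟨hx, hxK⟩)
      have hxP : x ∉ K ∪ {c} := nP x hxK hx.2.2.1
      refine ⟨?_, ?_, ?_⟩
      · refine R1 a b x ra rb hx.2.2.2 (nT a b x aP bP) ?_
        rw [t1n a aK, t1n b bK, t1n x hxK]
        exact h1.1
      · refine R1 b c x rb rc hx.2.2.2 (nT' b c x bP hxP) ?_
        rw [t1n b bK, t1n c cK, t1n x hxK]
        exact h1.2.1
      · refine R1 c a x rc ra hx.2.2.2 (nT'' c a x aP hxP) ?_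
        rw [t1n c cK, t1n a aK, t1n x hxK]
        exact h1.2.2
  · -- fac
    intro x y z h
    have hx : Rel E x := ⟨y, N.fe _ _ _ h⟩
    have hy : Rel E y := ⟨z, N.fe _ _ _ (N.rot _ _ _ h)⟩
    have hz : Rel E z := ⟨x, N.fe _ _ _ (N.rot _ _ _ (N.rot _ _ _ h))⟩
    by_cases hT : Two (K ∪ {c}) x y z
    · exact R2 x y z hx hy hz hT (G2.fac _ _ _ (H.r2 x y z h hT))
    · exact R1 x y z hx hy hz hT (G1.fac _ _ _ (H.r1 x y z h hT))

end Pool.Agent.SGD.H77
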